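import Pool.Agent.H901R3.MS.Stm2
import Pool.Agent.W659.FD.Stm

/-!
Project FK (helper659): rational points over all number fields `K` on the double covers
`w² = F(P; t)` of `A × 𝔸ⁿ`; places of `K` of degree at most two.  Statements of the tasks.
-/

set_option autoImplicit false

namespace Pool.Agent.W659.FK

open MvPolynomial NumberField Pool.Agent.W659.FD Pool.Agent.H901R3.MS

/-- LINEK: density of the square values of a polynomial in `n` variables over a finite field -/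
def S_LINEK : Prop := ∀ n D : ℕ, 1 ≤ n → ∃ q₁ : ℕ, ∀ (k : Type) [Field k] [Fintype k],
  (2 : k) ≠ 0 → q₁ ≤ Fintype.card k → ∀ f : MvPolynomial (Fin n) k, f.totalDegree ≤ D →
    (∀ (c : k) (g : MvPolynomial (Fin n) k), f ≠ C c * g ^ 2) →
    (((Sq f).ncard : ℕ) : ℝ) ≤ 2 / 3 * (Fintype.card k : ℝ) ^ n

/-- ULTK: transfer from `ℂ` to all fields of large characteristic -/
def S_ULTK : Prop := ∀ (r n : ℕ) (a b : Fin r → ℤ) (F : Poly r n),
  (∀ V : Fin r → Fin 3 → ℂ, (∀ i, FD.OnE (a i) (b i) (V i)) →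
    ∀ g : MvPolynomial (Fin n) ℂ, spec F V ≠ g ^ 2) →
  ∃ p₁ : ℕ, ∀ p : ℕ, p.Prime → p₁ ≤ p → ∀ (k : Type) [Field k] [CharP k p],
    ∀ V : Fin r → Fin 3 → k, (∀ i, FD.OnE (a i) (b i) (V i)) →
      ∀ (c : k) (g : MvPolynomial (Fin n) k), spec F V ≠ C c * g ^ 2

/-- KILL: a curve over `𝔽_p` with `p + 1` points: its group over `𝔽_p` and over `𝔽_(p²)` is killed by
`2 (p + 1)` -/
def S_KILL : Prop := ∀ (p : ℕ) [Fact p.Prime] (a b : ℤ), 2 < p →
  ¬ (p : ℤ) ∣ 4 * a ^ 3 + 27 * b ^ 2 →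
  Nat.card {z : ZMod p × ZMod p // z.2 ^ 2 = z.1 ^ 3 + a * z.1 + b} = p →
  ∀ (k : Type) [Field k] [Fintype k] [DecidableEq k],
    (Fintype.card k = p ∨ Fintype.card k = p ^ 2) →
    ∀ P : Pt (a : k) (b : k), (2 * (p + 1)) • P = 0

/-- HOM: every number field `K` has places of degree at most two above the primes `p ≡ 3 (mod 4)`
which have a place of degree one in a certain real number field `M` -/
def S_HOM : Prop := ∀ (K : Type) [Field K] [NumberField K],
  ∃ (M : Type) (_ : Field M) (_ : NumberField M),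
    (¬ ∃ x : M, x ^ 2 = -1) ∧ (¬ ∃ x : M, x ^ 2 = -3) ∧
    ∀ (p : ℕ) [Fact p.Prime], p % 4 = 3 → Nonempty (𝓞 M →+* ZMod p) →
      ∃ (k : Type) (_ : Field k) (_ : Fintype k),
        (Fintype.card k = p ∨ Fintype.card k = p ^ 2) ∧
          ∃ φ : 𝓞 K →+* k, Function.Surjective φ

/-- PLQ: the place of a number field defined by a homomorphism of `𝓞 K` onto a finite field -/
def S_PLQ : Prop := ∀ (K : Type) [Field K] [NumberField K] (k : Type) [Field k] [Finite k]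
  (φ : 𝓞 K →+* k), Function.Surjective φ →
    ∃ v : Place K k, ∀ x : 𝓞 K, (x : K) ∈ v.A ∧ v.r (x : K) = φ x

/-- PRE: the preimage in `(ℤ/p)^(n N)` of a subset of `kⁿ` has the same density -/
def S_PRE : Prop := ∀ (K : Type) [Field K] [NumberField K] (n N : ℕ)
  (ω : Module.Basis (Fin N) ℤ (𝓞 K)) (p : ℕ) [Fact p.Prime] (k : Type) [Field k] [Fintype k]
  (_ : Fintype.card k = p ∨ Fintype.card k = p ^ 2) (φ : 𝓞 K →+* k),
  Function.Surjective φ → ∀ (Ω : Set (Fin n → k)) (θ : ℝ),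
    ((Ω.ncard : ℕ) : ℝ) ≤ θ * (Fintype.card k : ℝ) ^ n →
    ∃ G : Set (Fin n × Fin N → ZMod p),
      ((G.ncard : ℕ) : ℝ) ≤ θ * (p : ℝ) ^ Fintype.card (Fin n × Fin N) ∧
      ∀ c : Fin n × Fin N → ℤ, (fun i => φ (∑ j, c (i, j) • ω j)) ∈ Ω →
        (fun s => (c s : ZMod p)) ∈ G

end Pool.Agent.W659.FK
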