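import Pool.Agent.W659.FK.Stm
import Pool.Agent.W659.FD.Geo2

/-! Project FK (helper659): local conditions and the sieve inequality over a number field. -/

set_option autoImplicit false

namespace Pool.Agent.W659.FK

open MvPolynomial NumberField Pool.Agent.W659.FD Pool.Agent.H901R3.MS WeierstrassCurve

theorem local_sqK {K k : Type} [Field K] [Field k] (v : Place K k) {r n : ℕ} (a b : Fin r → ℤ)
    (red : ∀ i, Pt (a i : K) (b i : K) → Pt (a i : k) (b i : k))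
    (hrep : ∀ i, ∀ P : Pt (a i : K) (b i : K), ∃ u : K, u ≠ 0 ∧
      ∀ j, u * rep P j ∈ v.A ∧ v.r (u * rep P j) = rep (red i P) j)
    (F : Poly r n) (d : Fin r → ℕ) (hd : ∀ i, Even (d i)) (hF : MultiHomog F d)
    (P : ∀ i, Pt (a i : K) (b i : K)) (t : Fin n → K) (ht : ∀ i, t i ∈ v.A) (w : K)
    (hw : w ^ 2 = val F (fun i => rep (P i)) t) :
    (fun i => v.r (t i)) ∈ Sq (spec F (fun i => rep (red i (P i)))) := by
  choose u hu0 hu1 using fun i => hrep i (P i)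
  choose m hm using hd
  set V' : Fin r → Fin 3 → v.A := fun i j => ⟨u i * rep (P i) j, (hu1 i j).1⟩ with hV'
  set t' : Fin n → v.A := fun i => ⟨t i, ht i⟩ with ht'
  set x : v.A := valR F V' t' with hx
  have hxK : (x : K) = (∏ i, u i ^ d i) * val F (fun i => rep (P i)) t := by
    have h1 := valR_map v.A.subtype F V' t'
    have h2 : (v.A.subtype (valR F V' t')) = (x : K) := rfl
    rw [← h2, h1, ← valR_eq, ← valR_scale F d hF]
    rfl
  have hsq : ((∏ i, u i ^ m i) * w) ^ 2 = (x : K) := by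
    rw [hxK, mul_pow, hw]
    congr 1
    rw [← Finset.prod_pow]
    refine Finset.prod_congr rfl fun i _ => ?_
    rw [hm i, ← pow_mul, mul_two]
  have hmem2 : ((∏ i, u i ^ m i) * w) ^ 2 ∈ v.A := by rw [hsq]; exact x.2
  have hmem := v.mem_of_pow_mem (by norm_num) hmem2
  have hval : v.r (x : K) = val F (fun i => rep (red i (P i))) (fun i => v.r (t i)) := by
    rw [v.r_of x.2]
    have h1 := valR_map v.ρ F V' t'
    have h2 : (⟨(x : K), x.2⟩ : v.A) = valR F V' t' := rfl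
    rw [h2, h1, ← valR_eq]
    congr 1
    · funext i j
      have h3 := (hu1 i j).2
      rw [v.r_of (hu1 i j).1] at h3
      exact h3
    · funext i
      exact (v.r_of (ht i)).symm
  refine ⟨v.r ((∏ i, u i ^ m i) * w), ?_⟩
  rw [← v.r_pow hmem, hsq, hval, val_eq]

theorem std_pointK (hPTS : PTSK) {K : Type} [Field K] {r n : ℕ} (a b : Fin r → ℤ)
    (hdisc : ∀ i, Disc (a i : K) (b i : K))
    (F : Poly r n) (d : Fin r → ℕ) (hd : ∀ i, Even (d i)) (hF : MultiHomog F d)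
    (t : Fin n → K) (V : Fin r → Fin 3 → K) (hV : ∀ i, FD.OnE (a i) (b i) (V i)) (w : K)
    (hw : w ^ 2 = val F V t) :
    ∃ (P : ∀ i, Pt (a i : K) (b i : K)) (w' : K), w' ^ 2 = val F (fun i => rep (P i)) t := by
  have h1 : ∀ i, ∃ (P : Pt (a i : K) (b i : K)) (u : K), u ≠ 0 ∧ ∀ j, V i j = u * rep P j :=
    fun i => hPTS K (a i) (b i) (V i) (hdisc i) (hV i)
  choose P u hu0 hu1 using h1
  choose k hk using hd
  refine ⟨P, w / ∏ i, u i ^ k i, ?_⟩
  have h2 : V = fun i j => u i * rep (P i) j := by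
    funext i j
    exact hu1 i j
  rw [h2, ← valR_eq, valR_scale F d hF, valR_eq] at hw
  have h3 : (∏ i, u i ^ k i) ≠ 0 := by
    rw [Finset.prod_ne_zero_iff]
    intro i _
    exact pow_ne_zero _ (hu0 i)
  have h4 : ∏ i, u i ^ d i = (∏ i, u i ^ k i) ^ 2 := by
    rw [← Finset.prod_pow]
    refine Finset.prod_congr rfl fun i _ => ?_
    rw [hk i, ← pow_mul, mul_two]
  rw [div_pow, hw, h4]
  field_simp

/-- the coefficient vectors (in a basis of `𝓞 K`) of the `t ∈ (𝓞 K)ⁿ` in a box for which the double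
cover `w² = F(P; t)` of `E_1 × … × E_r` has a `K`-rational point -/
def FibK {r n N : ℕ} (K : Type) [Field K] [NumberField K] (ω : Module.Basis (Fin N) ℤ (𝓞 K))
    (a b : Fin r → ℤ) (F : Poly r n) (H : ℕ) : Set (Fin n × Fin N → ℤ) :=
  {c | (∀ s, |c s| ≤ H) ∧ ∃ (V : Fin r → Fin 3 → K) (w : K),
    (∀ i, FD.OnE (a i) (b i) (V i)) ∧
      w ^ 2 = val F V (fun i => ((∑ j, c (i, j) • ω j : 𝓞 K) : K))}

/-- a prime `p` which is good for the sieve: a place of degree at most two -/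
def GoodP (K : Type) [Field K] [NumberField K] (p : ℕ) : Prop :=
  ∃ (k : Type) (_ : Field k) (_ : Fintype k), (Fintype.card k = p ∨ Fintype.card k = p ^ 2) ∧
    ∃ φ : 𝓞 K →+* k, Function.Surjective φ

/-- the sieve inequality -/
def SieveFK : Prop := ∀ (r n : ℕ), 1 ≤ n → ∀ (a b : Fin r → ℤ),
  (∀ i, a i * b i = 0 ∧ (a i ≠ 0 ∨ b i ≠ 0)) →
  ∀ (F : Poly r n) (d : Fin r → ℕ), (∀ i, Even (d i)) → MultiHomog F d →
  (∀ V : Fin r → Fin 3 → ℂ, (∀ i, FD.OnE (a i) (b i) (V i)) →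
    ∀ g : MvPolynomial (Fin n) ℂ, spec F V ≠ g ^ 2) →
  ∀ (K : Type) [Field K] [NumberField K] (N : ℕ) (ω : Module.Basis (Fin N) ℤ (𝓞 K)),
  ∃ p₀ R : ℕ, ∀ T : Finset ℕ,
    (∀ p ∈ T, p.Prime ∧ p₀ ≤ p ∧ 12 ∣ p + 1 ∧ GoodP K p) → ∀ L : ℕ, 1 ≤ L →
    (∀ p ∈ T, 2 * (p + 1) ∣ L) → ∀ H : ℕ, ∏ p ∈ T, p ≤ 2 * H + 1 →
    (((FibK K ω a b F H).ncard : ℕ) : ℝ) ≤
      (2 * (2 * (H : ℝ) + 1)) ^ Fintype.card (Fin n × Fin N) * ((L : ℝ) ^ R * (2 / 3) ^ T.card)

theorem sieveFK_aux (hLINE : S_LINEK) (hULT : S_ULTK) (hKILL : S_KILL) (hPLQ : S_PLQ)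
    (hPRE : S_PRE) (hRed : RedP) (hRep : RepP) (hPTS : PTSK) (hM1 : M1K) (hM2 : M2) (hBOX : BOX)
    (hCNT : Pool.Agent.H925R3.DC.CNT) : SieveFK := by
  classical
  intro r n hn a b hab F d hd hF hns K _ _ N ω
  have hdisc : ∀ i, 4 * a i ^ 3 + 27 * b i ^ 2 ≠ 0 := by
    intro i h
    obtain ⟨h1, h2⟩ := hab i
    rcases mul_eq_zero.1 h1 with h3 | h3
    · rw [h3] at h h2
      have h4 : (b i) ^ 2 = 0 := by linarith
      rcases h2 with h2 | h2
      · exact h2 rfl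
      · exact h2 (pow_eq_zero_iff two_ne_zero |>.1 h4)
    · rw [h3] at h h2
      have h4 : (a i) ^ 3 = 0 := by linarith
      rcases h2 with h2 | h2
      · exact h2 (pow_eq_zero_iff three_ne_zero |>.1 h4)
      · exact h2 rfl
  obtain ⟨p₁, hp₁⟩ := hULT r n a b F hns
  obtain ⟨q₁, hq₁⟩ := hLINE n F.totalDegree hn
  have hdK : ∀ i, Disc (a i : K) (b i : K) := fun i =>
    disc_of two_ne_zero (by exact_mod_cast hdisc i)
  have h1 : ∀ i, ∃ R : ℕ, ∀ L : ℕ, 1 ≤ L → ∃ A : Finset (Pt (a i : K) (b i : K)),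
      A.card ≤ L ^ R ∧ ∀ g : Pt (a i : K) (b i : K), ∃ κ ∈ A, ∃ δ : Pt (a i : K) (b i : K),
        g = κ + L • δ := by
    intro i
    exact hM2 _ (hM1 K (a i) (b i) (hdK i))
  choose R hR using h1
  refine ⟨p₁ + q₁ + 5 + ∑ i, (4 * a i ^ 3 + 27 * b i ^ 2).natAbs + 1, ∑ i, R i, ?_⟩
  intro T hT L hL hTL H hH
  have hTp : ∀ p ∈ T, p.Prime := fun p hp => (hT p hp).1
  have h2 : ∀ i, ∃ A : Finset (Pt (a i : K) (b i : K)),
      A.card ≤ L ^ (R i) ∧ ∀ g : Pt (a i : K) (b i : K), ∃ κ ∈ A, ∃ δ : Pt (a i : K) (b i : K),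
        g = κ + L • δ := fun i => hR i L hL
  choose A hAc hAr using h2
  -- the local data
  have key : ∀ p : ℕ, p ∈ T → ∃ G : (∀ i, Pt (a i : K) (b i : K)) → Set (Fin n × Fin N → ZMod p),
      (∀ κ, (((G κ).ncard : ℕ) : ℝ) ≤ 2 / 3 * (p : ℝ) ^ Fintype.card (Fin n × Fin N)) ∧
      ∀ (κ δ : ∀ i, Pt (a i : K) (b i : K)) (c : Fin n × Fin N → ℤ) (w : K),
        w ^ 2 = val F (fun i => rep (κ i + L • δ i))
          (fun i => ((∑ j, c (i, j) • ω j : 𝓞 K) : K)) →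
          (fun s => (c s : ZMod p)) ∈ G κ := by
    intro p hp
    obtain ⟨hpp, hp0, h12, k, _, _, hcard, φ, hφ⟩ := hT p hp
    haveI : Fact p.Prime := ⟨hpp⟩
    haveI : CharP k p := by
      obtain ⟨q, hq⟩ := CharP.exists k
      have hqp : q.Prime := CharP.char_is_prime k q
      obtain ⟨m, _, hm⟩ := FiniteField.card k q
      have h5 : p ∣ q ^ (m : ℕ) := by
        rw [← hm]
        rcases hcard with h | h
        · rw [h]
        · rw [h]; exact dvd_pow_self _ two_ne_zero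
      have h6 : p = q := (Nat.prime_dvd_prime_iff_eq hpp hqp).1 (hpp.dvd_of_dvd_pow h5)
      rw [h6]
      exact hq
    have hpcard : p ≤ Fintype.card k := by
      rcases hcard with h | h
      · exact h.ge
      · rw [h]; exact Nat.le_self_pow two_ne_zero p
    have hpd : ∀ i, ¬ (p : ℤ) ∣ 4 * a i ^ 3 + 27 * b i ^ 2 := by
      intro i h
      have h5 := Nat.le_of_dvd (Int.natAbs_pos.2 (hdisc i)) (Int.natCast_dvd.1 h)
      have h6 : (4 * a i ^ 3 + 27 * b i ^ 2).natAbs ≤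
          ∑ i, (4 * a i ^ 3 + 27 * b i ^ 2).natAbs :=
        Finset.single_le_sum (f := fun i => (4 * a i ^ 3 + 27 * b i ^ 2).natAbs)
          (fun _ _ => Nat.zero_le _) (Finset.mem_univ i)
      omega
    have h2k : (2 : k) ≠ 0 := by
      intro h
      have h5 : ((2 : ℕ) : k) = 0 := by exact_mod_cast h
      rw [CharP.cast_eq_zero_iff k p] at h5
      have := Nat.le_of_dvd (by norm_num) h5
      omega
    obtain ⟨v, hv⟩ := hPLQ K k φ hφ
    have hdk : ∀ i, Disc (a i : k) (b i : k) := fun i => disc_of h2k (by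
      intro h
      exact hpd i ((CharP.intCast_eq_zero_iff k p _).1 h))
    have h1 : ∀ i, ∃ red : Pt (a i : K) (b i : K) →+ Pt (a i : k) (b i : k),
        IsRed v (a i) (b i) red := fun i => hRed K k v (a i) (b i) (hdk i)
    choose red hred using h1
    have hkill : ∀ i, ∀ P : Pt (a i : k) (b i : k), (2 * (p + 1)) • P = 0 := fun i P =>
      hKILL p (a i) (b i) (by omega) (hpd i) (hCNT p (a i) (b i) hpp h12 (hab i).1) k hcard P
    have hredL : ∀ i, ∀ κ δ : Pt (a i : K) (b i : K), red i (κ + L • δ) = red i κ := by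
      intro i κ δ
      obtain ⟨m, hm⟩ := hTL p hp
      rw [map_add, map_nsmul, hm, mul_comm, mul_smul, hkill i, smul_zero, add_zero]
    have hΩ : ∀ κ : (∀ i, Pt (a i : K) (b i : K)),
        (((Sq (spec F (fun i => rep (red i (κ i))))).ncard : ℕ) : ℝ) ≤
          2 / 3 * (Fintype.card k : ℝ) ^ n := by
      intro κ
      refine hq₁ k h2k (by omega) _ (totalDegree_spec_le F _) ?_
      exact hp₁ p hpp (by omega) k _ (fun i => onE_rep _)
    choose G hG1 hG2 using fun κ : (∀ i, Pt (a i : K) (b i : K)) =>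
      hPRE K n N ω p k hcard φ hφ (Sq (spec F (fun i => rep (red i (κ i))))) (2 / 3) (hΩ κ)
    refine ⟨G, hG1, ?_⟩
    intro κ δ c w hw
    apply hG2 κ c
    have h7 := local_sqK v a b (fun i => red i)
        (fun i P => hRep K k v (a i) (b i) (red i) (hred i) P) F d hd hF
        (fun i => κ i + L • δ i) (fun i => ((∑ j, c (i, j) • ω j : 𝓞 K) : K))
        (fun i => (hv _).1) w hw
    have h8 : (fun i => v.r ((∑ j, c (i, j) • ω j : 𝓞 K) : K)) =
        fun i => φ (∑ j, c (i, j) • ω j) := by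
      funext i
      exact (hv _).2
    have h9 : (fun i => rep (red i (κ i + L • δ i))) = fun i => rep (red i (κ i)) := by
      funext i
      rw [hredL i]
    rw [h8, h9] at h7
    exact h7
  choose G0 hG1 hG2 using key
  let G : (∀ i, Pt (a i : K) (b i : K)) → (p : ℕ) → Set (Fin n × Fin N → ZMod p) := fun κ p =>
    {c | ∃ hp : p ∈ T, c ∈ G0 p hp κ}
  have hGeq : ∀ κ (p : ℕ) (hp : p ∈ T), G κ p = G0 p hp κ := by
    intro κ p hp
    ext c
    exact ⟨fun ⟨_, h⟩ => h, fun h => ⟨hp, h⟩⟩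
  have hB : ∀ κ, (({c : Fin n × Fin N → ℤ | c ∈ Box (Fin n × Fin N) H ∧
      ∀ p ∈ T, (fun s => (c s : ZMod p)) ∈ G κ p}.ncard : ℕ) : ℝ) ≤
      (2 * (2 * (H : ℝ) + 1)) ^ Fintype.card (Fin n × Fin N) * (2 / 3) ^ T.card := fun κ =>
    hBOX (Fin n × Fin N) T hTp (G κ) (2 / 3) (by norm_num) (by
      intro p hp
      rw [hGeq κ p hp]
      exact hG1 p hp κ) H hH
  have hsub : FibK K ω a b F H ⊆ ⋃ κ ∈ Fintype.piFinset A,
      {c : Fin n × Fin N → ℤ | c ∈ Box (Fin n × Fin N) H ∧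
        ∀ p ∈ T, (fun s => (c s : ZMod p)) ∈ G κ p} := by
    rintro c ⟨hc1, V, w, hV, hw⟩
    obtain ⟨P, w', hw'⟩ := std_pointK hPTS a b hdK F d hd hF _ V hV w hw
    have h3 : ∀ i, ∃ κ ∈ A i, ∃ δ : Pt (a i : K) (b i : K), P i = κ + L • δ := fun i =>
      hAr i (P i)
    choose κ hκ δ hδ using h3
    rw [Set.mem_iUnion₂]
    refine ⟨κ, Fintype.mem_piFinset.2 hκ, ?_, ?_⟩
    · unfold Box
      rw [Fintype.mem_piFinset]
      intro s
      rw [Finset.mem_Icc]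
      exact abs_le.1 (hc1 s)
    intro p hp
    rw [hGeq κ p hp]
    refine hG2 p hp κ δ c w' ?_
    rw [hw']
    congr 1
    funext i
    rw [hδ i]
  have hfin : (⋃ κ ∈ Fintype.piFinset A,
      {c : Fin n × Fin N → ℤ | c ∈ Box (Fin n × Fin N) H ∧
        ∀ p ∈ T, (fun s => (c s : ZMod p)) ∈ G κ p}).Finite := by
    apply Set.Finite.subset (Box (Fin n × Fin N) H).finite_toSet
    intro c hc
    rw [Set.mem_iUnion₂] at hc
    obtain ⟨_, _, hc, _⟩ := hc
    exact hc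
  have hcard : (((Fintype.piFinset A).card : ℕ) : ℝ) ≤ (L : ℝ) ^ (∑ i, R i) := by
    rw [Fintype.card_piFinset]
    push_cast
    rw [← Finset.prod_pow_eq_pow_sum]
    refine Finset.prod_le_prod (fun i _ => by positivity) fun i _ => ?_
    exact_mod_cast hAc i
  set s₀ := Fintype.card (Fin n × Fin N) with hs₀
  calc (((FibK K ω a b F H).ncard : ℕ) : ℝ)
      ≤ (((⋃ κ ∈ Fintype.piFinset A, {c : Fin n × Fin N → ℤ | c ∈ Box (Fin n × Fin N) H ∧
          ∀ p ∈ T, (fun s => (c s : ZMod p)) ∈ G κ p}).ncard : ℕ) : ℝ) := by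
        exact_mod_cast Set.ncard_le_ncard hsub hfin
    _ ≤ ((∑ κ ∈ Fintype.piFinset A, {c : Fin n × Fin N → ℤ | c ∈ Box (Fin n × Fin N) H ∧
          ∀ p ∈ T, (fun s => (c s : ZMod p)) ∈ G κ p}.ncard : ℕ) : ℝ) := by
        exact_mod_cast Finset.set_ncard_biUnion_le _ _
    _ = ∑ κ ∈ Fintype.piFinset A, (({c : Fin n × Fin N → ℤ | c ∈ Box (Fin n × Fin N) H ∧
          ∀ p ∈ T, (fun s => (c s : ZMod p)) ∈ G κ p}.ncard : ℕ) : ℝ) := by
        push_cast
        rfl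
    _ ≤ ∑ κ ∈ Fintype.piFinset A, (2 * (2 * (H : ℝ) + 1)) ^ s₀ *
          (2 / 3) ^ T.card := Finset.sum_le_sum fun κ _ => hB κ
    _ = (((Fintype.piFinset A).card : ℕ) : ℝ) * ((2 * (2 * (H : ℝ) + 1)) ^ s₀ *
          (2 / 3) ^ T.card) := by rw [Finset.sum_const, nsmul_eq_mul]
    _ ≤ (L : ℝ) ^ (∑ i, R i) * ((2 * (2 * (H : ℝ) + 1)) ^ s₀ *
          (2 / 3) ^ T.card) := mul_le_mul_of_nonneg_right hcard (by positivity)
    _ = (2 * (2 * (H : ℝ) + 1)) ^ s₀ * ((L : ℝ) ^ (∑ i, R i) *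
          (2 / 3) ^ T.card) := by ring

end Pool.Agent.W659.FK
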