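import Pool.Agent.H901R3.MS.P_Z1K
import Pool.Agent.W659.FK.GeoK

/-! Project FK (helper659): assembly of the main theorem over number fields. -/

set_option autoImplicit false

namespace Pool.Agent.W659.FK

open MvPolynomial NumberField Pool.Agent.W659.FD Pool.Agent.H901R3.MS WeierstrassCurve

/-- the main theorem over number fields -/
def MainFK : Prop := ∀ (r n : ℕ), 1 ≤ n → ∀ (a b : Fin r → ℤ),
  (∀ i, a i * b i = 0 ∧ (a i ≠ 0 ∨ b i ≠ 0)) →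
  ∀ (F : Poly r n) (d : Fin r → ℕ), (∀ i, Even (d i)) → MultiHomog F d →
  (∀ V : Fin r → Fin 3 → ℂ, (∀ i, FD.OnE (a i) (b i) (V i)) →
    ∀ g : MvPolynomial (Fin n) ℂ, spec F V ≠ g ^ 2) →
  ∀ (K : Type) [Field K] [NumberField K] (N : ℕ) (ω : Module.Basis (Fin N) ℤ (𝓞 K)),
  ∃ c : ℝ, 0 < c ∧ ∃ H₀ : ℕ, ∀ H : ℕ, H₀ ≤ H →
    (((FibK K ω a b F H).ncard : ℕ) : ℝ) ≤
      (2 * (H : ℝ) + 1) ^ (n * N) * Real.exp (-c * (Real.log H / Real.log (Real.log H)))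

theorem floor_step {τ : ℝ} (h0 : 0 < τ) (h1 : τ < 1) : ∃ Y : ℕ, ∀ y : ℕ, Y ≤ y →
    ⌊(y : ℝ) ^ τ⌋₊ + 1 ≤ ⌊(y : ℝ) ^ ((τ + 1) / 2)⌋₊ := by
  refine ⟨⌈(2 : ℝ) ^ (2 / (1 - τ))⌉₊ + 1, fun y hy => ?_⟩
  have hy1 : (1 : ℝ) ≤ y := by
    have : 1 ≤ y := by omega
    exact_mod_cast this
  have h2 : (2 : ℝ) ^ (2 / (1 - τ)) ≤ y := by
    refine (Nat.le_ceil _).trans ?_
    have : ⌈(2 : ℝ) ^ (2 / (1 - τ))⌉₊ ≤ y := by omega
    exact_mod_cast this
  have h3 : (2 : ℝ) ≤ (y : ℝ) ^ ((1 - τ) / 2) := by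
    have h4 := Real.rpow_le_rpow (by positivity) h2 (show 0 ≤ (1 - τ) / 2 by linarith)
    rw [← Real.rpow_mul (by norm_num)] at h4
    have h5 : 2 / (1 - τ) * ((1 - τ) / 2) = 1 := by
      have : 1 - τ ≠ 0 := by linarith
      field_simp
    rwa [h5, Real.rpow_one] at h4
  have h4 : (1 : ℝ) ≤ (y : ℝ) ^ τ := Real.one_le_rpow hy1 h0.le
  have h5 : (y : ℝ) ^ ((τ + 1) / 2) = (y : ℝ) ^ τ * (y : ℝ) ^ ((1 - τ) / 2) := by
    rw [← Real.rpow_add (by linarith)]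
    congr 1
    ring
  rw [← Nat.floor_add_one (by positivity)]
  apply Nat.floor_le_floor
  rw [h5]
  nlinarith

theorem mainFK_aux (hS : SieveFK) (hHOM : S_HOM) (hSP : SPK) (hLY : LY) (hASY : ASYK) :
    MainFK := by
  intro r n hn a b hab F d hd hF hns K _ _ N ω
  obtain ⟨p₀, R, hSv⟩ := hS r n hn a b hab F d hd hF hns K N ω
  obtain ⟨M, _, _, hM1, hM3, hM⟩ := hHOM K
  obtain ⟨τ, hτ0, hτ1, κ, hκ, Y, hY⟩ := hSP M True True (fun _ => hM1) (fun _ => hM3)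
  obtain ⟨Y₂, hY₂⟩ := floor_step hτ0 hτ1
  obtain ⟨c, hc, H₀, hH3, hA⟩ := hASY (Fintype.card (Fin n × Fin N)) R (κ / 2) ((τ + 1) / 2)
    (by positivity) (by linarith) (by linarith)
  set M' : ℕ := p₀ + 2 with hM'
  set N' : ℕ := ⌈(4 * (M' : ℝ) / κ) ^ 2⌉₊ with hN'
  refine ⟨c, hc, max H₀ (4 ^ (max Y (max 3 (max N' Y₂)))), ?_⟩
  intro H hH
  have hH0 : H₀ ≤ H := (le_max_left _ _).trans hH
  have hH1 : 4 ^ (max Y (max 3 (max N' Y₂))) ≤ H := (le_max_right _ _).trans hH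
  have hy0 := W_Z1K.le_floor_of_pow hH1
  have hpow := W_Z1K.pow_le_of_floor H
  set y : ℕ := ⌊Real.log (2 * H + 1) / Real.log 4⌋₊ with hy
  have hyY : Y ≤ y := (le_max_left _ _).trans hy0
  have hy3 : 3 ≤ y := ((le_max_left _ _).trans (le_max_right _ _)).trans hy0
  have hyN : N' ≤ y := (((le_max_left _ _).trans (le_max_right _ _)).trans (le_max_right _ _)).trans
    hy0
  have hyY2 : Y₂ ≤ y := (((le_max_right _ _).trans (le_max_right _ _)).trans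
    (le_max_right _ _)).trans hy0
  classical
  set T : Finset ℕ := (DegP M True True y \ RoughP τ y).filter (fun p => M' ≤ p) with hT
  have hmemT : ∀ p ∈ T, (1 ≤ p ∧ p ≤ y) ∧ (p.Prime ∧ CondP True True p ∧
      Nonempty (𝓞 M →+* ZMod p)) ∧
      (∀ q : ℕ, q.Prime → q ∣ p + 1 → q ≤ ⌊(y : ℝ) ^ τ⌋₊) ∧ M' ≤ p := by
    intro p hp
    rw [hT, Finset.mem_filter, Finset.mem_sdiff] at hp
    obtain ⟨⟨h1, h3⟩, h2⟩ := hp
    unfold DegP at h1
    rw [Finset.mem_filter, Finset.mem_Icc] at h1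
    refine ⟨h1.1, h1.2, ?_, h2⟩
    intro q hq hqp
    by_contra hcon
    apply h3
    unfold RoughP
    rw [Finset.mem_filter, Finset.mem_Icc]
    exact ⟨h1.1, h1.2.1, q, hq, hqp, not_le.1 hcon⟩
  -- cardinality
  have hcard : ((DegP M True True y \ RoughP τ y).card : ℝ) ≤ (T.card : ℝ) + M' := by
    have h1 : DegP M True True y \ RoughP τ y ⊆ T ∪ Finset.range M' := by
      intro p hp
      rw [Finset.mem_union]
      by_cases hpM : M' ≤ p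
      · left
        rw [hT, Finset.mem_filter]
        exact ⟨hp, hpM⟩
      · right
        rw [Finset.mem_range]
        omega
    have h2 := (Finset.card_le_card h1).trans (Finset.card_union_le _ _)
    rw [Finset.card_range] at h2
    exact_mod_cast h2
  have hκy := hY y hyY
  have hyr3 : (3 : ℝ) ≤ (y : ℝ) := by exact_mod_cast hy3
  have hMy : (M' : ℝ) ≤ κ / 2 * (y / Real.log y) := by
    have h1 := W_Z1K.div_log_ge hyr3
    have h2 : 4 * (M' : ℝ) / κ ≤ Real.sqrt y := by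
      apply Real.le_sqrt_of_sq_le
      have h3 : (4 * (M' : ℝ) / κ) ^ 2 ≤ (N' : ℝ) := Nat.le_ceil _
      have h4 : (N' : ℝ) ≤ (y : ℝ) := by exact_mod_cast hyN
      exact h3.trans h4
    have h5 : 4 * (M' : ℝ) ≤ Real.sqrt y * κ := by
      rwa [div_le_iff₀ hκ] at h2
    have h6 : κ / 2 * (Real.sqrt y / 2) ≤ κ / 2 * (y / Real.log y) :=
      mul_le_mul_of_nonneg_left h1 (by positivity)
    nlinarith
  have hTcard : κ / 2 * (y / Real.log y) ≤ (T.card : ℝ) := by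
    have h1 : κ * (y / Real.log y) = κ / 2 * (y / Real.log y) + κ / 2 * (y / Real.log y) := by ring
    linarith
  -- the integer L
  obtain ⟨L, hL1, hL2, hL3⟩ := hLY y ⌊(y : ℝ) ^ τ⌋₊
  have hL2' : ((2 * L : ℕ) : ℝ) ≤ ((y : ℝ) + 1) ^ ⌊(y : ℝ) ^ ((τ + 1) / 2)⌋₊ := by
    have h1 : (L : ℝ) ≤ ((y : ℝ) + 1) ^ ⌊(y : ℝ) ^ τ⌋₊ := by exact_mod_cast hL2
    have h2 : ((y : ℝ) + 1) ^ (⌊(y : ℝ) ^ τ⌋₊ + 1) ≤
        ((y : ℝ) + 1) ^ ⌊(y : ℝ) ^ ((τ + 1) / 2)⌋₊ :=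
      pow_le_pow_right₀ (by linarith) (hY₂ y hyY2)
    refine le_trans ?_ h2
    rw [pow_succ]
    push_cast
    have h3 : (0 : ℝ) ≤ ((y : ℝ) + 1) ^ ⌊(y : ℝ) ^ τ⌋₊ := by positivity
    nlinarith
  have hdiv : ∀ p ∈ T, 2 * (p + 1) ∣ 2 * L := by
    intro p hp
    obtain ⟨h1, h2, h3, h4⟩ := hmemT p hp
    exact Nat.mul_dvd_mul_left 2 (hL3 (p + 1) (by omega) (by omega) h3)
  have hcond : ∀ p ∈ T, p.Prime ∧ p₀ ≤ p ∧ 12 ∣ p + 1 ∧ GoodP K p := by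
    intro p hpT
    obtain ⟨h1, ⟨h2, h3, h6⟩, h4, h5⟩ := hmemT p hpT
    haveI : Fact p.Prime := ⟨h2⟩
    have h7 := h3.1 trivial
    have h8 := h3.2 trivial
    exact ⟨h2, by omega, by omega, hM p h7 h6⟩
  have hprod : ∏ p ∈ T, p ≤ 2 * H + 1 := by
    have h1 : ∏ p ∈ T, p ≤ primorial y := by
      unfold primorial
      apply Finset.prod_le_prod_of_subset_of_one_le'
      · intro p hp
        obtain ⟨h1, h2, h3, h4⟩ := hmemT p hp
        rw [Finset.mem_filter, Finset.mem_range]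
        exact ⟨by omega, h2.1⟩
      · intro p hp _
        exact (Finset.mem_filter.1 hp).2.one_lt.le
    exact (h1.trans (primorial_le_four_pow y)).trans hpow
  have hfin := hSv T hcond (2 * L) (by omega) hdiv H hprod
  have hfin2 := hfin.trans (hA H hH0 y T.card (2 * L) hy hTcard hL2')
  rwa [Fintype.card_prod, Fintype.card_fin, Fintype.card_fin] at hfin2

end Pool.Agent.W659.FK
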