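import Pool.Agent.H901R3.MS.P_R1
import Pool.Agent.H901R3.MS.P_R2
import Pool.Agent.H901R3.MS.P_R3
import Pool.Agent.H901R3.MS.P_R4
import Pool.Agent.H901R3.MS.P_R5
import Pool.Agent.H901R3.MS.P_R6
import Pool.Agent.H901R3.MS.P_R7
import Pool.Agent.H901R3.MS.P_PTSK
import Pool.Agent.H901R3.MS.P_M1K
import Pool.Agent.H901R3.MS.P_M2
import Pool.Agent.H901R3.MS.P_BOX
import Pool.Agent.H901R3.MS.P_LY
import Pool.Agent.H901R3.MS.P_ASYK
import Pool.Agent.H901R3.MS.AllK
import Pool.Agent.H35R6.DC_CNT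
import Pool.Agent.W462.FK.LINEK
import Pool.Agent.W496.FK.ULTK
import Pool.Agent.W605.FK.Kill
import Pool.Agent.W580.FK.HOM
import Pool.Agent.W496.FK.PLQ
import Pool.Agent.W346.FK.PRE
import Pool.Agent.W659.FK.MainK

/-! Project FK (helper659): everything put together. -/

set_option autoImplicit false

namespace Pool.Agent.W659.FK

open MvPolynomial NumberField Pool.Agent.W659.FD Pool.Agent.H901R3.MS

theorem sieveFK : SieveFK :=
  sieveFK_aux Pool.Agent.W462.FK.main Pool.Agent.W496.FK.ULTK.main Pool.Agent.W605.FK.main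
    Pool.Agent.W496.FK.PLQ.main Pool.Agent.W346.FK.main (t_R6 t_R1 t_R2 t_R3 t_R4 t_R5)
    (t_R7 t_R1) t_PTSK t_M1K t_M2 t_BOX Pool.Agent.H35R6.DCCNT.cnt

theorem mainFK : MainFK :=
  mainFK_aux sieveFK _root_.W580.FK.main spK t_LY t_ASYK

end Pool.Agent.W659.FK
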